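import Pool.Agent.Helper65.Delone.Goals

/-! Packet G: third points near a good pair. -/

namespace Pool.Agent.Helper74.Del

open Module Pool.Agent.Helper65.Delone
open scoped RealInnerProductSpace

variable {E : Type*} [NormedAddCommGroup E] [InnerProductSpace ℝ E]

/-- A vector which is orthogonal to itself vanishes. -/
theorem eq_zero_of_orth {U V : Submodule ℝ E} (h : ∀ u ∈ U, ∀ w ∈ V, ⟪u, w⟫ = 0)
    {v : E} (hu : v ∈ U) (hv : v ∈ V) : v = 0 :=
  inner_self_eq_zero.1 (h v hu v hv)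

theorem symm_mem_of_map_mem {U : Submodule ℝ E} (hU : finrank ℝ U = 2) (A : E ≃ₗᵢ[ℝ] E)
    (hA : ∀ w ∈ U, A w ∈ U) {p : E} (hp : p ∈ U) : A.symm p ∈ U := by
  have : FiniteDimensional ℝ U := FiniteDimensional.of_finrank_pos (by rw [hU]; norm_num)
  let f : U →ₗ[ℝ] U :=
    { toFun := fun w => ⟨A w, hA w w.2⟩
      map_add' := by
        intro a b
        apply Subtype.ext
        simp
      map_smul' := by
        intro a b
        apply Subtype.ext
        simp }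
  have hinj : Function.Injective f := by
    intro a b hab
    apply Subtype.ext
    apply A.injective
    exact congrArg Subtype.val hab
  have hsurj : Function.Surjective f := LinearMap.surjective_of_injective hinj
  obtain ⟨w, hw⟩ := hsurj ⟨p, hp⟩
  have hw' : A (w : E) = p := congrArg Subtype.val hw
  rw [← hw', A.symm_apply_apply]
  exact w.2

theorem caseOne (hI : StepI E) {X : Set E} {L W : ℝ} {S : E → Set (E ≃ₗᵢ[ℝ] E)}
    {Q : E → Submodule ℝ E} (hF : Frame X L W S Q) {x y z c : E} (hx : x ∈ X) (hy : y ∈ X)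
    (hz : z ∈ X) (hor : ∀ u ∈ Q x, ∀ w ∈ Q y, ⟪u, w⟫ = 0) (hcx : c - x ∈ Q x)
    (hcy : c - y ∈ Q y) (hnx : c ≠ x) (hzc : z ≠ c)
    (hyx1 : ‖y - x‖ ≤ L) (hyx2 : ‖y - x‖ < 40 * W)
    (hzy1 : ‖z - y‖ ≤ L) (hzy2 : ‖z - y‖ < 40 * W) (hzx : z - x ∈ Q x) :
    z - c ∈ Q z ∧ z - c ∈ Q x ∧ Q z = Q x := by
  have h1 : z - c ∈ Q x := by
    have h := (Q x).sub_mem hzx hcx
    have e : z - x - (c - x) = z - c := by abel
    rwa [e] at h
  have h1n : z - c ≠ 0 := sub_ne_zero.2 hzc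
  have h2 : z - y ∉ Q y := by
    intro h
    have h3 := (Q y).sub_mem h hcy
    have e : z - y - (c - y) = z - c := by abel
    rw [e] at h3
    exact h1n (eq_zero_of_orth hor h1 h3)
  obtain ⟨h4, h, hh, p, hp, hsum, hpn, hA⟩ := hI X L W S Q hF y hy z hz hzy1 hzy2 h2
  have h5 : h - (c - y) = (z - c) - p := by
    have e : z - c = (z - y) - (c - y) := by abel
    rw [e, hsum]
    abel
  have h6 : h - (c - y) = 0 := by
    have m : h - (c - y) ∈ Q y := (Q y).sub_mem hh hcy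
    apply inner_self_eq_zero (𝕜 := ℝ).1
    nth_rewrite 1 [h5]
    rw [inner_sub_left, hor _ h1 _ m, real_inner_comm, h4 _ m _ hp, sub_zero]
  have h7 : z - c = p := by
    rw [h6] at h5
    exact sub_eq_zero.1 h5.symm
  have h8 : x - y ∉ Q y := by
    intro h9
    have h3 := (Q y).sub_mem h9 hcy
    have e : x - y - (c - y) = -(c - x) := by abel
    rw [e] at h3
    have h10 : c - x ∈ Q y := by simpa using (Q y).neg_mem h3
    exact sub_ne_zero.2 hnx (eq_zero_of_orth hor hcx h10)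
  obtain ⟨_, _, _, _, _, _, _, hB⟩ := hI X L W S Q hF y hy x hx
    (by rw [norm_sub_rev]; exact hyx1) (by rw [norm_sub_rev]; exact hyx2) h8
  obtain ⟨A, hAS⟩ := hF.S_ne y hy
  have hAx := (hB A hAS).1
  have hspan := (hA A hAS).2
  have hpx : p ∈ Q x := h7 ▸ h1
  have hle : Q z ≤ Q x := by
    rw [← hspan, Submodule.span_le]
    intro w hw
    rcases hw with hw | hw
    · rw [hw]
      exact (Q x).sub_mem (hAx p hpx) hpx
    · have hw' : w = A.symm p - p := hw
      rw [hw']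
      exact (Q x).sub_mem (symm_mem_of_map_mem (hF.Q_rank x hx) A hAx hpx) hpx
  have heq : Q z = Q x := by
    have : FiniteDimensional ℝ (Q x) :=
      FiniteDimensional.of_finrank_pos (by rw [hF.Q_rank x hx]; norm_num)
    exact Submodule.eq_of_le_of_finrank_eq hle (by rw [hF.Q_rank x hx, hF.Q_rank z hz])
  exact ⟨h7 ▸ hp, h1, heq⟩

/-- Packet G. -/
theorem lemC (hI : StepI E) : LemC E := by
  intro X L W S Q hF x hx y hy z hz c hor hcx hcy hnx hny hzc hyx1 hyx2 hzx1 hzx2 hzy1 hzy2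
  by_cases hx1 : z - x ∈ Q x
  · obtain ⟨h1, h2, h3⟩ := caseOne hI hF hx hy hz hor hcx hcy hnx hzc hyx1 hyx2 hzy1 hzy2 hx1
    exact ⟨h1, Or.inl ⟨h2, h3⟩⟩
  by_cases hy1 : z - y ∈ Q y
  · have hor' : ∀ u ∈ Q y, ∀ w ∈ Q x, ⟪u, w⟫ = 0 := by
      intro u hu w hw
      rw [real_inner_comm]
      exact hor w hw u hu
    obtain ⟨h1, h2, h3⟩ := caseOne hI hF hy hx hz hor' hcy hcx hny hzc
      (by rw [norm_sub_rev]; exact hyx1) (by rw [norm_sub_rev]; exact hyx2) hzx1 hzx2 hy1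
    exact ⟨h1, Or.inr (Or.inl ⟨h2, h3⟩)⟩
  obtain ⟨h4, h, hh, p, hp, hsum, -, -⟩ := hI X L W S Q hF x hx z hz hzx1 hzx2 hx1
  obtain ⟨h4', h', hh', p', hp', hsum', -, -⟩ := hI X L W S Q hF y hy z hz hzy1 hzy2 hy1
  have h5 : ((c - x) - h) - ((c - y) - h') = p - p' := by
    have e1 : p = z - x - h := by rw [hsum]; abel
    have e2 : p' = z - y - h' := by rw [hsum']; abel
    rw [e1, e2]
    abel
  have m1 : (c - x) - h ∈ Q x := (Q x).sub_mem hcx hh
  have m2 : (c - y) - h' ∈ Q y := (Q y).sub_mem hcy hh'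
  have m3 : p - p' ∈ Q z := (Q z).sub_mem hp hp'
  have h6 : p - p' = 0 := by
    apply inner_self_eq_zero (𝕜 := ℝ).1
    nth_rewrite 1 [← h5]
    rw [inner_sub_left, h4 _ m1 _ m3, h4' _ m2 _ m3, sub_zero]
  have h7 : (c - x) - h = 0 := by
    rw [h6] at h5
    have h8 : (c - x) - h = (c - y) - h' := sub_eq_zero.1 h5
    exact eq_zero_of_orth hor m1 (h8 ▸ m2)
  have h9 : z - c = p := by
    have h10 : c - x = h := sub_eq_zero.1 h7
    have e : z - c = z - x - (c - x) := by abel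
    rw [e, h10, hsum]
    abel
  exact ⟨h9 ▸ hp, Or.inr (Or.inr ⟨h4, h4'⟩)⟩

end Pool.Agent.Helper74.Del
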